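import Mathlib

/-!
# Lions and contamination: sweepable graphs without a monotonic sweep

Two lions can sweep the complete bipartite graph `K_{2,3}`, but no sweep of it by two lions is
monotonic.
-/

namespace Pool.Agent.Results.MP_95728c_co.MonotoneSweepsFail

open Finset

variable {V : Type} [Fintype V] [DecidableEq V]

/-- The set of cleared vertices after a step in which the lions go from `p` to `q`, if `C` was the
set of cleared vertices before: the occupied vertices, and the vertices `v` of `C` such that along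
every edge `vu` to a contaminated vertex `u` some lion moves from `v` to `u`. -/
def step (G : SimpleGraph V) [DecidableRel G.Adj] {k : ℕ} (C : Finset V) (p q : Fin k → V) :
    Finset V :=
  univ.filter fun v => (∃ i, q i = v) ∨
    (v ∈ C ∧ ∀ u, G.Adj v u → u ∉ C → ∃ i, p i = v ∧ q i = u)

/-- The set `C(t)` of cleared vertices at time `t`, the lions being at `P t`. -/
def cleared (G : SimpleGraph V) [DecidableRel G.Adj] {k : ℕ} (P : ℕ → Fin k → V) : ℕ → Finset V
  | 0 => univ.image (P 0)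
  | t + 1 => step G (cleared G P t) (P t) (P (t + 1))

/-- The lions always stay where they are or move along an edge. -/
def Legal (G : SimpleGraph V) {k : ℕ} (P : ℕ → Fin k → V) : Prop :=
  ∀ t i, P (t + 1) i = P t i ∨ G.Adj (P t i) (P (t + 1) i)

/-- `k` lions can sweep `G`. -/
def Sweepable (G : SimpleGraph V) [DecidableRel G.Adj] (k : ℕ) : Prop :=
  ∃ P : ℕ → Fin k → V, Legal G P ∧ ∃ T, cleared G P T = univ

/-- `k` lions can sweep `G` monotonically. -/
def MonotoneSweepable (G : SimpleGraph V) [DecidableRel G.Adj] (k : ℕ) : Prop :=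
  ∃ P : ℕ → Fin k → V, Legal G P ∧ ∃ T, cleared G P T = univ ∧
    ∀ t < T, cleared G P t ⊆ cleared G P (t + 1)

/-- The graph `K_{2,3}`, with parts `{0, 1}` and `{2, 3, 4}`. -/
def K23 : SimpleGraph (Fin 5) where
  Adj a b := (a < 2 ∧ 2 ≤ b) ∨ (b < 2 ∧ 2 ≤ a)
  symm := ⟨fun _ _ h => h.symm⟩
  loopless := ⟨fun a h => by revert a h; decide⟩

instance : DecidableRel K23.Adj := fun a b =>
  inferInstanceAs (Decidable ((a < 2 ∧ 2 ≤ b) ∨ (b < 2 ∧ 2 ≤ a)))

/-- A sweep by two lions. -/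
def P0 : ℕ → Fin 2 → Fin 5
  | 0 => ![0, 2]
  | 1 => ![3, 1]
  | 2 => ![0, 4]
  | _ => ![2, 1]

lemma legal_P0 : Legal K23 P0 := by
  intro t i
  match t with
  | 0 => revert i; decide
  | 1 => revert i; decide
  | 2 => revert i; decide
  | t + 3 => left; rfl

lemma sweep_K23 : Sweepable K23 2 := by
  refine ⟨P0, legal_P0, 3, ?_⟩
  decide +kernel

/-- The two-lion step with explicit positions. -/
def step2 (C : Finset (Fin 5)) (p0 p1 q0 q1 : Fin 5) : Finset (Fin 5) :=
  univ.filter fun v => (q0 = v ∨ q1 = v) ∨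
    (v ∈ C ∧ ∀ u, K23.Adj v u → u ∉ C → (p0 = v ∧ q0 = u) ∨ (p1 = v ∧ q1 = u))

lemma step_eq (C : Finset (Fin 5)) (p q : Fin 2 → Fin 5) :
    step K23 C p q = step2 C (p 0) (p 1) (q 0) (q 1) := by
  ext v
  simp only [step, step2, mem_filter, mem_univ, true_and, Fin.exists_fin_two]

/-- The invariant of monotonic play. -/
def Inv (C : Finset (Fin 5)) (p0 p1 : Fin 5) : Prop :=
  C = {p0, p1} ∨ (((p0 = 0 ∧ p1 = 1) ∨ (p0 = 1 ∧ p1 = 0)) ∧ ∃ x : Fin 5, C = {0, 1, x})

instance (C : Finset (Fin 5)) (p0 p1 : Fin 5) : Decidable (Inv C p0 p1) := by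
  unfold Inv; infer_instance

lemma inv_step1 : ∀ p0 p1 q0 q1 : Fin 5, (q0 = p0 ∨ K23.Adj p0 q0) → (q1 = p1 ∨ K23.Adj p1 q1) →
    ({p0, p1} : Finset (Fin 5)) ⊆ step2 {p0, p1} p0 p1 q0 q1 →
    Inv (step2 {p0, p1} p0 p1 q0 q1) q0 q1 := by
  decide +kernel

lemma inv_step2 : ∀ x q0 q1 : Fin 5, (q0 = 0 ∨ K23.Adj 0 q0) → (q1 = 1 ∨ K23.Adj 1 q1) →
    ({0, 1, x} : Finset (Fin 5)) ⊆ step2 {0, 1, x} 0 1 q0 q1 →
    Inv (step2 {0, 1, x} 0 1 q0 q1) q0 q1 := by
  decide +kernel

lemma inv_step3 : ∀ x q0 q1 : Fin 5, (q0 = 1 ∨ K23.Adj 1 q0) → (q1 = 0 ∨ K23.Adj 0 q1) →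
    ({0, 1, x} : Finset (Fin 5)) ⊆ step2 {0, 1, x} 1 0 q0 q1 →
    Inv (step2 {0, 1, x} 1 0 q0 q1) q0 q1 := by
  decide +kernel

lemma inv_ne_univ1 : ∀ p0 p1 : Fin 5, ({p0, p1} : Finset (Fin 5)) ≠ univ := by
  decide +kernel

lemma inv_ne_univ2 : ∀ x : Fin 5, ({0, 1, x} : Finset (Fin 5)) ≠ univ := by
  decide +kernel

lemma not_monotone_K23 : ¬ MonotoneSweepable K23 2 := by
  rintro ⟨P, hP, T, hT, hm⟩
  have key : ∀ t ≤ T, Inv (cleared K23 P t) (P t 0) (P t 1) := by
    intro t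
    induction t with
    | zero =>
      intro _
      left
      ext v
      simp only [cleared, mem_image, mem_univ, true_and, Fin.exists_fin_two, mem_insert,
        mem_singleton, eq_comm]
    | succ t ih =>
      intro ht
      have h1 := ih (by omega)
      have h2 := hm t (by omega)
      have h3 := hP t 0
      have h4 := hP t 1
      rw [cleared, step_eq] at h2 ⊢
      rcases h1 with h1 | ⟨⟨h5, h6⟩ | ⟨h5, h6⟩, x, h1⟩
      · rw [h1] at h2 ⊢
        exact inv_step1 _ _ _ _ h3 h4 h2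
      · rw [h1, h5, h6] at h2 ⊢
        rw [h5] at h3
        rw [h6] at h4
        exact inv_step2 _ _ _ h3 h4 h2
      · rw [h1, h5, h6] at h2 ⊢
        rw [h5] at h3
        rw [h6] at h4
        exact inv_step3 _ _ _ h3 h4 h2
  rcases key T le_rfl with h | ⟨-, x, h⟩
  · rw [hT] at h
    exact inv_ne_univ1 _ _ h.symm
  · rw [hT] at h
    exact inv_ne_univ2 _ h.symm

/-- **Monotonicity fails for lions and contamination.**  There are a finite graph `G` and a `k ≥ 1`
such that `k` lions can sweep `G` but cannot sweep it monotonically; `G = K_{2,3}`, `k = 2` is an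
example. -/
theorem result : Sweepable K23 2 ∧ ¬ MonotoneSweepable K23 2 ∧
    ¬ ∀ (V : Type) (_ : Fintype V) (_ : DecidableEq V) (G : SimpleGraph V)
      (_ : DecidableRel G.Adj) (k : ℕ), 1 ≤ k → Sweepable G k → MonotoneSweepable G k :=
  ⟨sweep_K23, not_monotone_K23, fun h =>
    not_monotone_K23 (h (Fin 5) _ _ K23 _ 2 (by norm_num) sweep_K23)⟩

end Pool.Agent.Results.MP_95728c_co.MonotoneSweepsFail
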