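import Pool.Agent.X71.Cc.Weak
import Pool.Agent.X71.Cc.Cls

/-!
# MP_d71793_co, Q1: weak c-Wilf equivalence of complementary signatures

For every signature `σ` and every `n ≥ 1` with `n` not congruent to `2` modulo `4` the classes of
`σ` and of the complementary signature contain equally many cyclic permutations of `[n]`.
-/

set_option autoImplicit false

open Finset

namespace Pool.Agent.Results.MP_d71793_co.WeakCWilf

/-- `π` consists of a single `n`-cycle: every element is reached from every element by iterating
`π` (for `n = 1` the identity is a single cycle) -/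
def SingleCycle {n : ℕ} (π : Equiv.Perm (Fin n)) : Prop :=
  ∀ x y : Fin n, ∃ m : ℕ, (π ^ m) x = y

/-- `π` lies in the class of the signature `σ` of size `k` (`true` stands for `+` and `false` for
`-`): there are `0 = e 0 ≤ e 1 ≤ ... ≤ e k = n` such that for each `i < k` the one-line notation of
`π` is increasing on the positions `a` with `e i ≤ a < e (i + 1)` if `σ i = +` and decreasing
there if `σ i = -` (positions are numbered from `0`) -/
def InClass {n k : ℕ} (σ : Fin k → Bool) (π : Equiv.Perm (Fin n)) : Prop :=
  ∃ e : ℕ → ℕ, e 0 = 0 ∧ e k = n ∧ (∀ i < k, e i ≤ e (i + 1)) ∧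
    ∀ (i : Fin k) (a b : Fin n), e i ≤ a → a < b → (b : ℕ) < e (i + 1) →
      if σ i = true then π a < π b else π b < π a

/-- For every signature `σ` and every `n ≥ 1` with `n % 4 ≠ 2`, the numbers of cyclic permutations
of `[n]` in the classes of `σ` and of its complement are equal. -/
theorem result (k : ℕ) (σ : Fin k → Bool) (n : ℕ) (hn : 1 ≤ n) (h4 : n % 4 ≠ 2) :
    Nat.card {π : Equiv.Perm (Fin n) // SingleCycle π ∧ InClass σ π} =
    Nat.card {π : Equiv.Perm (Fin n) // SingleCycle π ∧ InClass (fun i => !σ i) π} := by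
  classical
  obtain ⟨m, rfl⟩ : ∃ m, n = m + 1 := ⟨n - 1, by omega⟩
  rw [Nat.card_eq_fintype_card, Nat.card_eq_fintype_card, Fintype.card_subtype,
    Fintype.card_subtype]
  have h := Pool.Agent.X71.Cc.card_compl (m := m) h4 (σ := σ) (σ' := fun i => !σ i)
    (fun _ => rfl)
  have h1 : ∀ τ : Fin k → Bool, (univ.filter fun π : Equiv.Perm (Fin (m + 1)) =>
      SingleCycle π ∧ InClass τ π) =
      univ.filter fun π : Equiv.Perm (Fin (m + 1)) => Pool.Agent.X71.Cc.Cyc π ∧
        ∃ w, Pool.Agent.X71.Cc.CompW τ π w := by
    intro τ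
    ext π
    rw [mem_filter, mem_filter, ← Pool.Agent.X71.Cc.inClass_iff]
    rfl
  rw [h1, h1]
  exact h

end Pool.Agent.Results.MP_d71793_co.WeakCWilf
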